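import Pool.Agent.Y968.MB.Equal

/-!
# The MST heuristic for broadcasting: the ratio as an extremal problem in the unit ball
-/

set_option autoImplicit false

namespace Pool.Agent.Results.MP_c0cefe_lc.BallFormula

open Pool.Agent.Y968.MB
open scoped ENNReal

/-- **The approximation ratio `ρ_d(α)` of the MST heuristic equals the supremum of `∑ |e|^α` over
the edges of the minimum spanning trees of the finite subsets of the unit ball of `ℝ^d` which
contain its centre, for every `α > 0`; in particular it is non-increasing in `α`.** -/
theorem result (d : ℕ) :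
    (∀ α : ℝ, 0 < α → rho d α = ballMax d α) ∧
    ∀ α β : ℝ, 0 < α → α ≤ β → rho d β ≤ rho d α := by
  refine ⟨fun α hα => rho_eq_ballMax d hα, fun α β hα h => ?_⟩
  rw [rho_eq_ballMax d hα, rho_eq_ballMax d (hα.trans_le h)]
  exact ballMax_anti d hα h

end Pool.Agent.Results.MP_c0cefe_lc.BallFormula
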