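import Pool.Agent.Y968.MB.Upper
import Pool.Agent.Y968.MB.Lower

/-!
# The MST heuristic for broadcasting: the ratio tends to the kissing number
-/

set_option autoImplicit false

namespace Pool.Agent.Results.MP_c0cefe_lc.LimitIsKissing

open Pool.Agent.Y968.MB Filter Topology
open scoped ENNReal

/-- **The approximation ratio `ρ_d(α)` of the MST heuristic for broadcasting in `ℝ^d` tends to the
kissing number of `ℝ^d` as `α → ∞`, exponentially fast.** -/
theorem result (d : ℕ) :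
    (∀ α : ℝ, 0 ≤ α → (kissing d : ℝ≥0∞) ≤ rho d α) ∧
    (∃ C θ : ℝ, 0 ≤ C ∧ 0 < θ ∧ θ < 1 ∧
      ∀ α : ℝ, (d : ℝ) + 1 ≤ α → rho d α ≤ ENNReal.ofReal (kissing d + C * θ ^ α)) ∧
    Tendsto (fun α : ℝ => rho d α) atTop (𝓝 (kissing d : ℝ≥0∞)) := by
  obtain ⟨θ, hθ0, hθ1, hθ⟩ := pack_near d
  have hd0 : (0 : ℝ) ≤ d := Nat.cast_nonneg d
  have hlow : ∀ α : ℝ, 0 ≤ α → (kissing d : ℝ≥0∞) ≤ rho d α := fun α hα => lower d hα
  set C : ℝ := 3 ^ d * (d + 1) * θ ^ (-(d : ℝ)) with hC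
  have hC0 : 0 ≤ C := by positivity
  have hup : ∀ α : ℝ, (d : ℝ) + 1 ≤ α → rho d α ≤ ENNReal.ofReal (kissing d + C * θ ^ α) := by
    intro α hα
    refine sSup_le ?_
    rintro _ ⟨V, _, x, s, p, q, _, _, hp, hq, rfl⟩
    apply ENNReal.ofReal_le_ofReal
    have hα1 : (d : ℝ) < α := by linarith
    have hB : BB d θ α ≤ kissing d + C * θ ^ α := by
      unfold BB
      have h1 : θ ^ (α - d) = θ ^ α * θ ^ (-(d : ℝ)) := by
        rw [← Real.rpow_add hθ0]
        congr 1
      have h2 : α / (α - d) ≤ d + 1 := by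
        rw [div_le_iff₀ (by linarith)]
        nlinarith
      rw [h1, hC]
      have h3 : 0 ≤ θ ^ α * θ ^ (-(d : ℝ)) := by positivity
      have h4 : (3 : ℝ) ^ d * (α / (α - d)) * (θ ^ α * θ ^ (-(d : ℝ))) ≤
          3 ^ d * (d + 1) * (θ ^ α * θ ^ (-(d : ℝ))) := by
        apply mul_le_mul_of_nonneg_right _ h3
        exact mul_le_mul_of_nonneg_left h2 (by positivity)
      linarith
    have hB0 : 0 ≤ kissing d + C * θ ^ α := by positivity
    have he := energy_nonneg x α s q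
    refine div_le_of_le_mul₀ he hB0 ?_
    exact (upper hθ0 hθ hp hq.1 hα1).trans (mul_le_mul_of_nonneg_right hB he)
  refine ⟨hlow, ⟨C, θ, hC0, hθ0, hθ1, hup⟩, ?_⟩
  have hlim : Tendsto (fun α : ℝ => ENNReal.ofReal (kissing d + C * θ ^ α)) atTop
      (𝓝 (kissing d : ℝ≥0∞)) := by
    have h1 : Tendsto (fun α : ℝ => (kissing d : ℝ) + C * θ ^ α) atTop
        (𝓝 ((kissing d : ℝ) + C * 0)) :=
      tendsto_const_nhds.add ((tendsto_rpow_atTop_of_base_lt_one θ (by linarith) hθ1).const_mul C)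
    have h2 := (ENNReal.continuous_ofReal.tendsto _).comp h1
    rw [mul_zero, add_zero, ENNReal.ofReal_natCast] at h2
    exact h2
  refine tendsto_of_tendsto_of_tendsto_of_le_of_le' tendsto_const_nhds hlim ?_ ?_
  · filter_upwards [eventually_ge_atTop 0] with α hα
    exact hlow α hα
  · filter_upwards [eventually_ge_atTop ((d : ℝ) + 1)] with α hα
    exact hup α hα

end Pool.Agent.Results.MP_c0cefe_lc.LimitIsKissing
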