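import Pool.Agent.Y968.MB.Over

/-!
# The MST heuristic for broadcasting in space: the ratio exceeds twelve
-/

set_option autoImplicit false

namespace Pool.Agent.Results.MP_c0cefe_lc.OverTwelve

open Pool.Agent.Y968.MB
open scoped ENNReal

/-- **The approximation ratio `ρ_3(α)` of the MST heuristic for broadcasting in `ℝ^3` is at least
`12 + (47/100)^α`, in particular greater than `12`, for every `α`.** -/
theorem result (α : ℝ) (hα : 1 ≤ α) :
    ENNReal.ofReal (12 + (47 / 100) ^ α) ≤ rho 3 α ∧ 12 < rho 3 α := by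
  have h1 := over_twelve (α := α) (by linarith)
  refine ⟨h1, lt_of_lt_of_le ?_ h1⟩
  have h2 : (12 : ℝ≥0∞) = ENNReal.ofReal 12 := by norm_num
  rw [h2]
  have h3 : (0 : ℝ) < (47 / 100) ^ α := by positivity
  exact (ENNReal.ofReal_lt_ofReal_iff (by linarith)).2 (by linarith)

end Pool.Agent.Results.MP_c0cefe_lc.OverTwelve
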